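import Mathlib

set_option autoImplicit false

namespace Pool.Agent.Results.MP_3af439_nt.Counterexample

open Finset

/-- `phi e n` is the number of integers `i` with `1 ≤ i ≤ ⌊n / e⌋` and `gcd(i, n) = 1`. -/
def phi (e n : ℕ) : ℕ := ((Finset.Icc 1 (n / e)).filter (fun i => Nat.gcd i n = 1)).card

/-- The number of `1 ≤ i ≤ N` coprime to `m`. -/
def c (N m : ℕ) : ℕ := ((Finset.Icc 1 N).filter (fun i => Nat.gcd i m = 1)).card

lemma c_one (N : ℕ) : c N 1 = N := by
  unfold c
  rw [Finset.filter_true_of_mem (fun i _ => Nat.gcd_one_right i)]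
  simp

/-- Inclusion-exclusion step. -/
lemma c_mul (N m p : ℕ) (hp : p.Prime) (hpm : ¬ p ∣ m) : c N (m * p) = c N m - c (N / p) m := by
  have hcop : Nat.Coprime p m := (Nat.Prime.coprime_iff_not_dvd hp).2 hpm
  have h1 : ((Finset.Icc 1 N).filter (fun i => Nat.gcd i m = 1)).card =
      ((Finset.Icc 1 N).filter (fun i => Nat.gcd i (m * p) = 1)).card +
      ((Finset.Icc 1 N).filter (fun i => Nat.gcd i m = 1 ∧ p ∣ i)).card := by
    rw [← Finset.card_filter_add_card_filter_not (s := (Finset.Icc 1 N).filter (fun i => Nat.gcd i m = 1))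
      (fun i => ¬ p ∣ i)]
    congr 1
    · rw [Finset.filter_filter]
      congr 1
      apply Finset.filter_congr
      intro i _
      constructor
      · rintro ⟨h1, h2⟩
        exact Nat.Coprime.mul_right h1 (Nat.Coprime.symm ((Nat.Prime.coprime_iff_not_dvd hp).2 h2))
      · intro h
        have h3 : Nat.Coprime i (m * p) := h
        refine ⟨Nat.Coprime.coprime_mul_right_right h3, ?_⟩
        exact (Nat.Prime.coprime_iff_not_dvd hp).1 (Nat.Coprime.coprime_mul_left_right h3).symm
    · rw [Finset.filter_filter]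
      congr 1
      apply Finset.filter_congr
      intro i _
      simp
  have h2 : ((Finset.Icc 1 N).filter (fun i => Nat.gcd i m = 1 ∧ p ∣ i)).card =
      ((Finset.Icc 1 (N / p)).filter (fun i => Nat.gcd i m = 1)).card := by
    symm
    apply Finset.card_bij (fun j _ => p * j)
    · intro j hj
      rw [mem_filter, mem_Icc] at hj ⊢
      obtain ⟨⟨h1, h2⟩, h3⟩ := hj
      refine ⟨⟨Nat.mul_pos hp.pos h1, ?_⟩, ?_, Dvd.intro _ rfl⟩
      · calc p * j ≤ p * (N / p) := Nat.mul_le_mul_left p h2
          _ ≤ N := Nat.mul_div_le N p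
      · exact Nat.Coprime.mul_left hcop h3
    · intro a _ b _ hab
      exact Nat.eq_of_mul_eq_mul_left hp.pos hab
    · intro i hi
      rw [mem_filter, mem_Icc] at hi
      obtain ⟨⟨h1, h2⟩, h3, j, rfl⟩ := hi
      refine ⟨j, ?_, rfl⟩
      rw [mem_filter, mem_Icc]
      refine ⟨⟨Nat.pos_of_ne_zero (by rintro rfl; simp at h1), ?_⟩, ?_⟩
      · rw [Nat.le_div_iff_mul_le hp.pos, mul_comm]
        exact h2
      · exact Nat.Coprime.coprime_mul_left h3
  unfold c
  omega

lemma prime_3517 : Nat.Prime 3517 := by norm_num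

lemma phi_value : phi 3 4125441 = 825088 := by
  have h0 : phi 3 4125441 = c 1375147 (1 * 3 * 17 * 23 * 3517) := by
    unfold phi c
    norm_num
  rw [h0]
  rw [c_mul _ _ 3517 prime_3517 (by norm_num), c_mul _ _ 23 (by norm_num) (by norm_num),
    c_mul _ _ 23 (by norm_num) (by norm_num), c_mul _ _ 17 (by norm_num) (by norm_num),
    c_mul _ _ 17 (by norm_num) (by norm_num), c_mul _ _ 17 (by norm_num) (by norm_num),
    c_mul _ _ 17 (by norm_num) (by norm_num)]
  simp only [c_mul _ 1 3 Nat.prime_three (by norm_num), c_one]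

/-- There is a composite integer `n` outside the list for which `φ₃(n)` divides `n - 1`. -/
theorem result : ∃ n : ℕ, 4 ≤ n ∧ ¬ n.Prime ∧
    n ∉ ({4, 6, 8, 9, 12, 16, 21, 65, 425, 1729, 3201, 3531, 22865} : Finset ℕ) ∧
    phi 3 n ∣ n - 1 := by
  refine ⟨4125441, by norm_num, by norm_num, by decide, ?_⟩
  rw [phi_value]
  norm_num

end Pool.Agent.Results.MP_3af439_nt.Counterexample
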